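import Pool.Agent.K3h64.SSI.Net

/-!
# Vertex transitive sub scale invariant graphs exist

For every `m ≥ 1` the Cartesian product of the two-way infinite path with the complete graph `K_m` is
a vertex transitive graph for which `C_k = 1` for all `k ≥ 2` and all choices of the `k`-nets. So it
is sub scale invariant. For `m = 1` this is the Cayley graph of `ℤ` with one generator (the grid
`ℤ^d` with `d = 1`), for `m = 2` the two-way infinite ladder.

Proof. The projection `h` to `ℤ` preserves distances up to an error at most one. In the net graph there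
is a bi-infinite geodesic `p`, by compactness, since the net graph is a connected graph on a subset of
`ℤ` with bounded steps. Every vertex of the net graph is at distance at most one from `p`, because
consecutive vertices of `p` have heights which differ by at most `2 k + 1`. So `p ∘ h` is a `C`-rough
isometry for every `C > 1`. There are no `C`-rough isometries for `C < 1`, since distances are
unbounded.

`IsNet`, `netGraph`, `IsRoughIsometry`, `roughConst` and `SubScaleInvariant` are defined in
`Pool/Agent/K3h64/SSI/Net.lean`.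
-/

set_option autoImplicit false

namespace Pool.Agent.Results.MP_6f70ff_gt.SubScaleInvariantLines

open SimpleGraph Pool.Agent.K3h64.SSI

/-- the two-way infinite path -/
def line : SimpleGraph ℤ where
  Adj a b := a = b + 1 ∨ b = a + 1
  symm := ⟨fun _ _ h => h.symm⟩
  loopless := ⟨fun a h => by omega⟩

/-- the Cartesian product of the two-way infinite path and the complete graph with `m` vertices -/
def prism (m : ℕ) : SimpleGraph (ℤ × Fin m) := line □ (⊤ : SimpleGraph (Fin m))

lemma line_walk (a : ℤ) (d : ℕ) : ∃ w : line.Walk a (a + d), w.length = d := by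
  induction d with
  | zero => exact ⟨Walk.nil.copy rfl (by simp), by simp⟩
  | succ d ih =>
    obtain ⟨w, hw⟩ := ih
    have h : line.Adj (a + d) (a + (d + 1 : ℕ)) := Or.inr (by push_cast; ring)
    exact ⟨w.concat h, by simp [hw]⟩

lemma line_lower {a b : ℤ} (w : line.Walk a b) : |a - b| ≤ w.length := by
  induction w with
  | nil => simp
  | @cons a c b h w ih =>
    rw [Walk.length_cons]
    have h1 : |a - c| = 1 := by
      rcases h with h | h
      · rw [h]; simp
      · rw [h]; simp
    have h2 := abs_sub_le a c b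
    push_cast
    linarith

lemma line_conn : line.Connected := by
  refine ⟨fun a b => ?_⟩
  rcases le_total a b with h | h
  · obtain ⟨w, -⟩ := line_walk a (b - a).toNat
    exact ⟨w.copy rfl (by omega)⟩
  · obtain ⟨w, -⟩ := line_walk b (a - b).toNat
    exact ⟨(w.copy rfl (by omega)).reverse⟩

lemma line_dist (a b : ℤ) : (line.dist a b : ℤ) = |a - b| := by
  apply le_antisymm
  · rcases le_total a b with h | h
    · obtain ⟨w, hw⟩ := line_walk a (b - a).toNat
      have h1 := dist_le (w.copy rfl (by omega : a + ((b - a).toNat : ℤ) = b))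
      rw [Walk.length_copy, hw] at h1
      rw [abs_sub_comm, abs_of_nonneg (by omega)]
      omega
    · obtain ⟨w, hw⟩ := line_walk b (a - b).toNat
      have h1 := dist_le (w.copy rfl (by omega : b + ((a - b).toNat : ℤ) = a))
      rw [Walk.length_copy, hw, dist_comm] at h1
      rw [abs_of_nonneg (by omega)]
      omega
  · obtain ⟨w, hw⟩ := line_conn.exists_walk_length_eq_dist a b
    rw [← hw]
    exact line_lower w

lemma prism_conn {m : ℕ} (hm : 1 ≤ m) : (prism m).Connected := by
  have : Nonempty (Fin m) := ⟨⟨0, hm⟩⟩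
  exact line_conn.boxProd connected_top

lemma prism_dist {m : ℕ} (hm : 1 ≤ m) (x y : ℤ × Fin m) :
    ((prism m).dist x y : ℤ) = |x.1 - y.1| + if x.2 = y.2 then 0 else 1 := by
  have : Nonempty (Fin m) := ⟨⟨0, hm⟩⟩
  have h1 : (prism m).edist x y = line.edist x.1 y.1 + (⊤ : SimpleGraph (Fin m)).edist x.2 y.2 :=
    edist_boxProd x y
  rw [← ((prism_conn hm).preconnected x y).coe_dist_eq_edist,
    ← (line_conn.preconnected x.1 y.1).coe_dist_eq_edist, edist_top] at h1
  rw [← line_dist]
  split_ifs at h1 ⊢ with h
  · have : (prism m).dist x y = line.dist x.1 y.1 := by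
      rw [add_zero] at h1; exact_mod_cast h1
    rw [this]; simp
  · have : (prism m).dist x y = line.dist x.1 y.1 + 1 := by exact_mod_cast h1
    rw [this]; push_cast; rfl

lemma prism_error {m : ℕ} (hm : 1 ≤ m) (x y : ℤ × Fin m) :
    abs (((prism m).dist x y : ℤ) - |x.1 - y.1|) ≤ 1 := by
  rw [prism_dist hm, add_sub_cancel_left]
  split_ifs <;> simp

lemma prism_transitive {m : ℕ} (u v : ℤ × Fin m) : ∃ φ : prism m ≃g prism m, φ u = v := by
  refine ⟨⟨(Equiv.addRight (v.1 - u.1)).prodCongr (Equiv.swap u.2 v.2), ?_⟩, ?_⟩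
  · intro a b
    simp only [prism, boxProd_adj, line, Equiv.prodCongr_apply, Prod.map_fst, Prod.map_snd,
      Equiv.coe_addRight, top_adj, ne_eq, EmbeddingLike.apply_eq_iff_eq]
    constructor
    · rintro (⟨h, h'⟩ | ⟨h, h'⟩)
      · left; refine ⟨?_, h'⟩; omega
      · right; refine ⟨h, ?_⟩; omega
    · rintro (⟨h, h'⟩ | ⟨h, h'⟩)
      · left; refine ⟨?_, h'⟩; omega
      · right; refine ⟨h, ?_⟩; omega
  · ext
    · show u.1 + (v.1 - u.1) = v.1
      ring
    · show ((Equiv.swap u.2 v.2) u.2 : Fin m).val = v.2.val
      rw [Equiv.swap_apply_left]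

/-- For every `m ≥ 1` the graph `prism m`, the Cartesian product of the two-way infinite path and
`K_m`, is infinite, connected, locally finite, vertex transitive and sub scale invariant. Moreover
`k`-nets exist for every `k`, and for every `k ≥ 2` and every `k`-net `N` the net graph is
connected and `C_k = 1`. -/
theorem result : ∀ m : ℕ, 1 ≤ m →
    Infinite (ℤ × Fin m) ∧ (prism m).Connected ∧ (∀ v, ((prism m).neighborSet v).Finite) ∧
    (∀ u v, ∃ φ : prism m ≃g prism m, φ u = v) ∧
    SubScaleInvariant (prism m) ∧
    (∀ k, ∃ N, IsNet (prism m) k N) ∧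
    ∀ (k : ℕ) (N : Set (ℤ × Fin m)), 2 ≤ k → IsNet (prism m) k N →
      (netGraph (prism m) k N).Connected ∧ roughConst (prism m) (netGraph (prism m) k N) = 1 := by
  intro m hm
  have : Nonempty (Fin m) := ⟨⟨0, hm⟩⟩
  have hsurj : Function.Surjective (fun x : ℤ × Fin m => x.1) := fun z => ⟨(z, ⟨0, hm⟩), rfl⟩
  have key : ∀ (k : ℕ) (N : Set (ℤ × Fin m)), 2 ≤ k → IsNet (prism m) k N →
      roughConst (prism m) (netGraph (prism m) k N) = 1 := fun k N hk hN =>
    roughConst_eq_one (prism_conn hm) (fun x => x.1) hsurj (prism_error hm) hk hN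
  refine ⟨inferInstance, prism_conn hm, ?_, prism_transitive, ?_, exists_net _, ?_⟩
  · intro v
    have hsub : (prism m).neighborSet v ⊆ (Set.Icc (v.1 - 1) (v.1 + 1)) ×ˢ Set.univ := by
      rintro w hw
      have hw' : (line.Adj v.1 w.1 ∧ v.2 = w.2) ∨ ((⊤ : SimpleGraph (Fin m)).Adj v.2 w.2 ∧
        v.1 = w.1) := hw
      refine ⟨?_, trivial⟩
      rw [Set.mem_Icc]
      rcases hw' with ⟨h | h, -⟩ | ⟨-, h⟩ <;> omega
    exact ((Set.finite_Icc _ _).prod Set.finite_univ).subset hsub
  · intro N hN
    apply tendsto_const_nhds.congr'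
    filter_upwards [Filter.eventually_ge_atTop 2] with k hk
    exact (key k (N k) hk (hN k (by omega))).symm
  · intro k N hk hN
    exact ⟨(netGraph_conn (prism_conn hm) (by omega) hN).1, key k N hk hN⟩

end Pool.Agent.Results.MP_6f70ff_gt.SubScaleInvariantLines
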